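import Pool.Agent.W232.FC.Stm

set_option autoImplicit false

open NumberField Pool.Agent.W232.FC

namespace Pool.Agent.W417.FC.DEG

theorem main : Pool.Agent.W232.FC.S_DEG := by
  intro m
  induction m with
  | zero =>
    intro d v P h
    have h0 : Set.range v = ∅ := Set.range_eq_empty v
    rw [h0, IntermediateField.adjoin_empty]
    refine ⟨inferInstance, ?_⟩
    rw [IntermediateField.finrank_bot, pow_zero]
  | succ m ih =>
    intro d v P h
    obtain ⟨h1, h2⟩ := ih d (v ∘ Fin.castSucc) (P ∘ Fin.castSucc) (fun i => h _)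
    have hr : Set.range v = Set.range (v ∘ Fin.castSucc) ∪ {v (Fin.last m)} := by
      ext x
      constructor
      · rintro ⟨i, rfl⟩
        refine Fin.lastCases ?_ ?_ i
        · exact Or.inr rfl
        · intro j
          exact Or.inl ⟨j, rfl⟩
      · rintro (⟨i, rfl⟩ | rfl)
        · exact ⟨_, rfl⟩
        · exact ⟨_, rfl⟩
    obtain ⟨hP, hd, hv⟩ := h (Fin.last m)
    have halg : IsAlgebraic ℚ (v (Fin.last m)) := ⟨_, hP, hv⟩
    have hint : IsIntegral ℚ (v (Fin.last m)) := halg.isIntegral
    have h3 : FiniteDimensional ℚ (IntermediateField.adjoin ℚ {v (Fin.last m)}) :=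
      IntermediateField.adjoin.finiteDimensional hint
    rw [hr, IntermediateField.adjoin_union]
    refine ⟨IntermediateField.finiteDimensional_sup _ _, ?_⟩
    refine (IntermediateField.finrank_sup_le _ _).trans ?_
    rw [pow_succ]
    refine Nat.mul_le_mul h2 ?_
    rw [IntermediateField.adjoin.finrank hint]
    refine le_trans ?_ hd
    exact Polynomial.natDegree_le_of_dvd (minpoly.dvd ℚ _ hv) hP

end Pool.Agent.W417.FC.DEG
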