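import Pool.Agent.W232.FC.Stm

set_option autoImplicit false

open NumberField Pool.Agent.W232.FC

namespace Pool.Agent.W417.FC.REP

theorem abs_norm_le (K : Type) [Field K] [NumberField K] (x : 𝓞 K) (R : ℝ)
    (h : ∀ σ : K →+* ℂ, ‖σ (x : K)‖ ≤ R) :
    ((Ideal.absNorm (Ideal.span {x}) : ℕ) : ℝ) ≤ R ^ Module.finrank ℚ K := by
  classical
  rw [Ideal.absNorm_span_singleton]
  have h1 : algebraMap ℚ ℂ (Algebra.norm ℚ (x : K)) = ∏ σ : K →ₐ[ℚ] ℂ, σ (x : K) :=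
    Algebra.norm_eq_prod_embeddings ℚ ℂ (x : K)
  have h2 : ((Algebra.norm ℤ x : ℤ) : ℚ) = Algebra.norm ℚ (x : K) :=
    Algebra.coe_norm_int x
  have h3 : (((Algebra.norm ℤ x).natAbs : ℕ) : ℝ) = ‖algebraMap ℚ ℂ (Algebra.norm ℚ (x : K))‖ := by
    rw [← h2]
    simp [Nat.cast_natAbs]
  rw [h3, h1, norm_prod]
  have h4 : Module.finrank ℚ K = (Finset.univ : Finset (K →ₐ[ℚ] ℂ)).card := by
    rw [Finset.card_univ, AlgHom.card]
  rw [h4, ← Finset.prod_const]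
  exact Finset.prod_le_prod (fun σ _ => norm_nonneg _) fun σ _ => h σ.toRingHom

theorem aux (K : Type) [Field K] [NumberField K] (D : ℕ) (hD : Module.finrank ℚ K = D) (B : ℝ)
    (hB : 1 ≤ B) (w : Fin D → 𝓞 K) (hw : LinearIndependent ℚ (fun i => (w i : K)))
    (hwB : ∀ i, ∀ σ : K →+* ℂ, ‖σ (w i : K)‖ ≤ B)
    (𝔞 : Ideal (𝓞 K)) (h𝔞 : 𝔞 ≠ ⊥) : ∃ (𝔠 : Ideal (𝓞 K)) (y : 𝓞 K), 𝔠 ≠ ⊥ ∧ y ≠ 0 ∧
    (Ideal.absNorm 𝔠 : ℝ) ≤ ((D : ℝ) * B) ^ D ∧ 𝔞 * 𝔠 = Ideal.span {y} := by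
  classical
  have hDpos : 0 < D := hD ▸ Module.finrank_pos
  let n : ℕ := Ideal.absNorm 𝔞
  have hfin : Finite (𝓞 K ⧸ 𝔞) := Ideal.finiteQuotientOfFreeOfNeBot 𝔞 h𝔞
  have hn : 0 < n := Nat.pos_of_ne_zero (by
    intro h0
    exact h𝔞 (Ideal.absNorm_eq_zero_iff.1 h0))
  obtain ⟨k, hk1, hk2⟩ : ∃ k : ℕ, k ^ D ≤ n ∧ n < (k + 1) ^ D := by
    have hex : ∃ j : ℕ, n < j ^ D := ⟨n + 1, (Nat.lt_succ_self n).trans_le
      (Nat.le_self_pow hDpos.ne' _)⟩
    have h1 := Nat.find_spec hex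
    have h2 : Nat.find hex ≠ 0 := by
      intro h0
      rw [h0, zero_pow hDpos.ne'] at h1
      exact absurd h1 (Nat.not_lt_zero _)
    obtain ⟨k, hk⟩ := Nat.exists_eq_succ_of_ne_zero h2
    refine ⟨k, ?_, ?_⟩
    · have h3 := Nat.find_min hex (m := k) (by omega)
      exact not_lt.1 h3
    · rw [hk] at h1
      exact h1
  -- pigeonhole
  let iF : Fintype (𝓞 K ⧸ 𝔞) := Fintype.ofFinite _
  let F : (Fin D → Fin (k + 1)) → 𝓞 K ⧸ 𝔞 := fun c =>
    Ideal.Quotient.mk 𝔞 (∑ i, ((c i : ℕ) : 𝓞 K) * w i)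
  have hcard : Fintype.card (𝓞 K ⧸ 𝔞) < Fintype.card (Fin D → Fin (k + 1)) := by
    rw [Fintype.card_fun, Fintype.card_fin, Fintype.card_fin, ← Nat.card_eq_fintype_card]
    exact hk2
  obtain ⟨c, c', hne, hcc⟩ := Fintype.exists_ne_map_eq_of_card_lt F hcard
  let d : Fin D → ℤ := fun i => ((c i : ℕ) : ℤ) - ((c' i : ℕ) : ℤ)
  let β : 𝓞 K := ∑ i, (d i : 𝓞 K) * w i
  have hβ𝔞 : β ∈ 𝔞 := by
    have h1 := (Ideal.Quotient.mk_eq_mk_iff_sub_mem _ _).1 hcc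
    have h2 : β = ∑ i, ((c i : ℕ) : 𝓞 K) * w i - ∑ i, ((c' i : ℕ) : 𝓞 K) * w i := by
      rw [← Finset.sum_sub_distrib]
      refine Finset.sum_congr rfl fun i _ => ?_
      simp only [d]
      push_cast
      ring
    rw [h2]
    exact h1
  have hβ0 : β ≠ 0 := by
    intro h0
    apply hne
    have h1 : ∑ i, (d i : ℚ) • (w i : K) = 0 := by
      have h2 : algebraMap (𝓞 K) K β = 0 := by rw [h0, map_zero]
      rw [map_sum] at h2
      rw [← h2]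
      refine Finset.sum_congr rfl fun i _ => ?_
      rw [map_mul, Algebra.smul_def]
      congr 1
      simp
    have h2 := Fintype.linearIndependent_iff.1 hw _ h1
    funext i
    have h3 := h2 i
    apply Fin.ext
    have h4 : d i = 0 := by exact_mod_cast h3
    simp only [d] at h4
    omega
  have hdk : ∀ i, |(d i : ℝ)| ≤ k := by
    intro i
    have h1 := (c i).2
    have h2 := (c' i).2
    have h3 : |d i| ≤ (k : ℤ) := by
      rw [abs_le]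
      simp only [d]
      constructor <;> omega
    exact_mod_cast h3
  have hconj : ∀ σ : K →+* ℂ, ‖σ (β : K)‖ ≤ D * k * B := by
    intro σ
    have h1 : σ (β : K) = ∑ i, (d i : ℂ) * σ (w i : K) := by
      change σ (algebraMap (𝓞 K) K β) = _
      rw [map_sum, map_sum]
      refine Finset.sum_congr rfl fun i _ => ?_
      rw [map_mul, map_mul]
      congr 1
      simp
    rw [h1]
    calc ‖∑ i, (d i : ℂ) * σ (w i : K)‖ ≤ ∑ i, ‖(d i : ℂ) * σ (w i : K)‖ := norm_sum_le _ _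
      _ ≤ ∑ _i : Fin D, (k : ℝ) * B := by
          refine Finset.sum_le_sum fun i _ => ?_
          rw [norm_mul]
          refine mul_le_mul ?_ (hwB i σ) (norm_nonneg _) (Nat.cast_nonneg _)
          rw [Complex.norm_intCast]
          exact hdk i
      _ = D * k * B := by
          rw [Finset.sum_const, Finset.card_univ, Fintype.card_fin, nsmul_eq_mul]
          ring
  have hN := abs_norm_le K β _ hconj
  rw [hD] at hN
  obtain ⟨𝔠, h𝔠⟩ : 𝔞 ∣ Ideal.span {β} := Ideal.dvd_span_singleton.2 hβ𝔞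
  have hspan0 : Ideal.span {β} ≠ ⊥ := by
    rw [Ne, Ideal.span_singleton_eq_bot]
    exact hβ0
  refine ⟨𝔠, β, ?_, hβ0, ?_, h𝔠.symm⟩
  · rintro rfl
    apply hspan0
    rw [h𝔠, Ideal.mul_bot]
  · rw [h𝔠, map_mul] at hN
    push_cast at hN
    have h1 : (0 : ℝ) < n := by exact_mod_cast hn
    have h2 : ((k : ℝ)) ^ D ≤ n := by exact_mod_cast hk1
    have h3 : ((D : ℝ) * k * B) ^ D ≤ (D * B) ^ D * n := by
      rw [show (D : ℝ) * k * B = D * B * k by ring, mul_pow]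
      exact mul_le_mul_of_nonneg_left h2 (by positivity)
    have h4 : (n : ℝ) * (Ideal.absNorm 𝔠 : ℝ) ≤ n * (D * B) ^ D := by
      refine hN.trans (h3.trans (le_of_eq (mul_comm _ _)))
    exact le_of_mul_le_mul_left h4 h1

theorem main : Pool.Agent.W232.FC.S_REP := fun K _ _ B hB w hw hwB 𝔞 h𝔞 =>
  aux K _ rfl B hB w hw hwB 𝔞 h𝔞

end Pool.Agent.W417.FC.REP
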