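import Pool.Agent.W232.FC.Stm

set_option autoImplicit false

open NumberField Pool.Agent.W232.FC

namespace Pool.Agent.W417.FC.UNI

open NumberField.Units in
theorem card_torsion_le (h : S_INT) (K : Type) [Field K] [NumberField K] :
    (Nat.card (torsion K) : ℝ) ≤ 6 ^ (2 * Module.finrank ℚ K) := by
  classical
  let iT : Fintype (torsion K) := Fintype.ofFinite _
  let f : torsion K → 𝓞 K := fun ζ => ((ζ : (𝓞 K)ˣ) : 𝓞 K)
  have hf : Function.Injective f := fun a b hab => Subtype.ext (Units.ext hab)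
  have h1 := h K 1 le_rfl (Finset.univ.image f) (by
    intro x hx σ
    obtain ⟨ζ, -, rfl⟩ := Finset.mem_image.1 hx
    have h2 : IsOfFinOrder (ζ : (𝓞 K)ˣ) := (CommGroup.mem_torsion _).1 ζ.2
    obtain ⟨n, hn, h3⟩ := h2.exists_pow_eq_one
    have h4 : (σ ((f ζ : 𝓞 K) : K)) ^ n = 1 := by
      rw [← map_pow, ← map_pow (algebraMap (𝓞 K) K)]
      have : (f ζ) ^ n = 1 := by
        change (((ζ : (𝓞 K)ˣ) : 𝓞 K)) ^ n = 1
        rw [← Units.val_pow_eq_pow_val, h3, Units.val_one]
      rw [this, map_one, map_one]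
    exact (Complex.norm_eq_one_of_pow_eq_one h4 hn.ne').le)
  rw [Finset.card_image_of_injective _ hf, Finset.card_univ, ← Nat.card_eq_fintype_card] at h1
  refine h1.trans (le_of_eq ?_)
  norm_num

open NumberField.Units in
theorem rank_le (K : Type) [Field K] [NumberField K] : rank K ≤ Module.finrank ℚ K := by
  classical
  have h1 := NumberField.InfinitePlace.card_add_two_mul_card_eq_rank K
  have h2 := NumberField.InfinitePlace.card_eq_nrRealPlaces_add_nrComplexPlaces K
  unfold rank
  omega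

open NumberField.Units in
theorem main (h : S_INT) : Pool.Agent.W232.FC.S_UNI := by
  intro K _ _ q hq s hs
  classical
  have hq0 : NeZero q := ⟨by omega⟩
  let iT : Fintype (torsion K) := Fintype.ofFinite _
  choose ζe hζe using fun x : (𝓞 K)ˣ => (exist_unique_eq_mul_prod K x).exists
  let F : (𝓞 K)ˣ → torsion K × (Fin (rank K) → ZMod q) := fun x =>
    ((ζe x).1, fun i => ((ζe x).2 i : ZMod q))
  have hF : Set.InjOn F (s : Set (𝓞 K)ˣ) := by
    intro u hu v hv huv
    by_contra hne
    apply hs u hu v hv hne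
    have h1 : (F u).1 = (F v).1 := congrArg Prod.fst huv
    change (ζe u).1 = (ζe v).1 at h1
    have h2 : ∀ i, (q : ℤ) ∣ (ζe u).2 i - (ζe v).2 i := by
      intro i
      have h3 : ((ζe u).2 i : ZMod q) = ((ζe v).2 i : ZMod q) :=
        congrFun (show (F u).2 = (F v).2 from congrArg Prod.snd huv) i
      rw [← ZMod.intCast_zmod_eq_zero_iff_dvd]
      push_cast
      rw [h3, sub_self]
    choose d hd using h2
    refine ⟨∏ i, fundSystem K i ^ d i, ?_⟩
    conv_lhs => rw [hζe u]
    conv_rhs => rw [hζe v]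
    rw [h1, mul_assoc, ← Finset.prod_pow, ← Finset.prod_mul_distrib]
    congr 1
    refine Finset.prod_congr rfl fun i _ => ?_
    rw [← zpow_natCast, ← zpow_mul, ← zpow_add]
    congr 1
    have := hd i
    linarith [mul_comm (d i) (q : ℤ)]
  have h1 : s.card ≤ Fintype.card (torsion K × (Fin (rank K) → ZMod q)) := by
    rw [← Finset.card_image_of_injOn hF]
    exact Finset.card_le_univ _
  rw [Fintype.card_prod, Fintype.card_fun, ZMod.card, Fintype.card_fin,
    ← Nat.card_eq_fintype_card] at h1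
  have h2 : (s.card : ℝ) ≤ (Nat.card (torsion K) : ℝ) * (q : ℝ) ^ rank K := by
    exact_mod_cast h1
  have h3 := card_torsion_le h K
  have h4 : (q : ℝ) ^ rank K ≤ (q : ℝ) ^ Module.finrank ℚ K :=
    pow_le_pow_right₀ (by exact_mod_cast hq) (rank_le K)
  have h5 : (0 : ℝ) ≤ (q : ℝ) ^ rank K := by positivity
  calc (s.card : ℝ) ≤ (Nat.card (torsion K) : ℝ) * (q : ℝ) ^ rank K := h2
    _ ≤ 6 ^ (2 * Module.finrank ℚ K) * (q : ℝ) ^ Module.finrank ℚ K :=
        mul_le_mul h3 h4 h5 (by positivity)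
    _ = _ := by ring

end Pool.Agent.W417.FC.UNI
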